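import Mathlib
import Pool.Agent.H10.TvB

set_option autoImplicit false

namespace Pool.Agent.Results.MP_a73a08_co.AllTverberg
open Pool.Agent.H10.Tv

theorem result (n : ℕ) (hn : 0 < n) (K : Set (Finset (Fin n))) (h1 : IsLowerSet K)
    (h2 : ∀ i, {i} ∈ K) (d : ℕ) (hd : 2 ^ n ≤ d) : Tverberg K d :=
  main hn h1 h2 hd

end Pool.Agent.Results.MP_a73a08_co.AllTverberg
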